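import Mathlib
import Pool.Agent.Q89.RN.D
set_option autoImplicit false

/-!
# Local and global bi-Lipschitz embeddability into spaces with the Radon-Nikodym property

The question is answered negatively. There is a complete metric space all of whose closed balls of
radius `1/2` embed bi-Lipschitz in the plane, which has no bi-Lipschitz embedding in any Banach
space with the Radon-Nikodym property. The space is a disjoint union of spaces `K_n`: the line
times the binary sequences, where changing the digit `i` at height `t` costs twice the larger one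
of the distance from `t` to the multiples of `4^(-i-1)` and `4^(-i-1) / (n+2)`.
-/

namespace Pool.Agent.Results.MP_49a0e9_an.WormholeSpaces

open MeasureTheory Set Pool.Agent.Q89.RN
open scoped NNReal

/-- `V` is a Banach space with the Radon-Nikodym property: every Lipschitz map from the line to
`V` is differentiable almost everywhere. -/
def IsRNP (V : Type*) [NormedAddCommGroup V] [NormedSpace ℝ V] : Prop :=
  CompleteSpace V ∧
    ∀ f : ℝ → V, (∃ L : ℝ≥0, LipschitzWith L f) → ∀ᵐ t : ℝ, DifferentiableAt ℝ f t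

/-- `φ` is a bi-Lipschitz embedding. -/
def BiLipschitz {X V : Type*} [MetricSpace X] [NormedAddCommGroup V] (φ : X → V) : Prop :=
  ∃ c C : ℝ, 0 < c ∧ c ≤ C ∧
    ∀ x y : X, c * dist x y ≤ ‖φ x - φ y‖ ∧ ‖φ x - φ y‖ ≤ C * dist x y

/-- There is a complete metric space, all of whose closed balls of radius `1/2` embed bi-Lipschitz
in the plane (a space with the Radon-Nikodym property), which embeds bi-Lipschitz in no Banach
space with the Radon-Nikodym property. -/
theorem result.{u} : ∃ (X : Type) (_ : MetricSpace X), CompleteSpace X ∧ IsRNP (ℝ × ℝ) ∧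
    (∀ p : X, ∃ φ : Metric.closedBall p (1 / 2) → ℝ × ℝ, BiLipschitz φ) ∧
    ∀ (V : Type u) [NormedAddCommGroup V] [NormedSpace ℝ V], IsRNP V →
      ¬ ∃ φ : X → V, BiLipschitz φ := by
  refine ⟨Σ n, K n, Metric.Sigma.metricSpace, Metric.Sigma.completeSpace, ?_, ?_, ?_⟩
  · exact ⟨inferInstance, fun f ⟨_, hL⟩ => hL.ae_differentiableAt⟩
  · letI : MetricSpace (Σ n, K n) := Metric.Sigma.metricSpace
    rintro ⟨n, p⟩
    refine ⟨fun x => plane x.1.2.ht x.1.2.dg, 2 / 3, (n : ℝ) + 2, by norm_num, ?_, ?_⟩
    · have : (0 : ℝ) ≤ n := Nat.cast_nonneg n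
      linarith
    · rintro ⟨⟨i, a⟩, ha⟩ ⟨⟨j, b⟩, hb⟩
      have hi : i = n := Metric.Sigma.fst_eq_of_dist_lt_one _ _
        (lt_of_le_of_lt (Metric.mem_closedBall.1 ha) (by norm_num))
      have hj : j = n := Metric.Sigma.fst_eq_of_dist_lt_one _ _
        (lt_of_le_of_lt (Metric.mem_closedBall.1 hb) (by norm_num))
      subst hi
      subst hj
      have h := plane_bounds j a b
      have hdist : dist (⟨⟨j, a⟩, ha⟩ : Metric.closedBall (⟨j, p⟩ : Σ n, K n) (1 / 2))
          ⟨⟨j, b⟩, hb⟩ = dist a b := Metric.Sigma.dist_same j a b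
      rw [hdist]
      exact h
  · letI : MetricSpace (Σ n, K n) := Metric.Sigma.metricSpace
    rintro V _ _ ⟨hcomplete, hV⟩ ⟨φ, c, C, hc, hcC, h⟩
    have hC : 0 ≤ C := hc.le.trans hcC
    have key : ∀ n : ℕ, c ≤ 2 * C / ((n : ℝ) + 2) := by
      intro n
      have hd : ∀ a b : K n, dist (⟨n, a⟩ : Σ n, K n) ⟨n, b⟩ = dist a b :=
        fun a b => Metric.Sigma.dist_same n a b
      have h1 := distortion (f := fun a : K n => φ ⟨n, a⟩) (C := C.toNNReal) (c₀ := c) hc.le
        (fun a b => by
          rw [Real.coe_toNNReal C hC, ← hd]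
          exact (h _ _).2)
        (fun a b => by
          rw [← hd]
          exact (h _ _).1) hV
      rwa [Real.coe_toNNReal C hC] at h1
    obtain ⟨n, hn⟩ := exists_nat_gt (2 * C / c)
    have h2 := key n
    have h3 : (0 : ℝ) < (n : ℝ) + 2 := by positivity
    rw [le_div_iff₀ h3] at h2
    rw [div_lt_iff₀ hc] at hn
    nlinarith

end Pool.Agent.Results.MP_49a0e9_an.WormholeSpaces
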